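import Pool.Agent.Run7.h528.MB.Full

/-!
The nef cone and its rational hull for varieties with an abelian group of automorphisms of rank
`ρ - k` and `k` invariant blocks of divisor classes.
-/

set_option autoImplicit false

open FF Pool.Agent.W602.GT Pool.Agent.Y172 Pool.Agent.R887 Pool.Agent.N110 Pool.Agent.N110.CC
open Run7.h528.MB

/-- Let `X` be a normal projective variety of dimension `n ≥ 1`, with generic point `y`. Let the
vectors `c P` be the classes of the prime divisors in `N¹(X) = ℤ ^ ρ` (if `X` is `ℚ`-factorial, for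
instance smooth, then `ρ` is the Picard number of `X`). Let `ℤ ^ r`, `r ≥ 1`, act on `X` by
automorphisms `f_v`, given by the automorphisms `φ v = f_v^*` of the function field, and suppose that
`f_v` has positive entropy (the first dynamical degree is greater than `1`) for all `v ≠ 0`. Suppose
that `N¹(X)` contains with finite index a direct sum `Λ_1 ⊕ … ⊕ Λ_k` of groups of rank at least `2`
such that `f_v^*` maps each `Λ_i` into itself, and that `r = ρ - k`. (The classes `u j` are a basis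
of the sum, and `u j` is in `Λ_i` for `i = β j`.) For `k = 1` the condition is `r = ρ - 1`.

Then, for the nef cone `Nef(X)`, the effective cone `Eff(X)` and the cone `Nef(X)⁺` generated by
the rational nef classes:

* `Nef(X)` is the closure of `Eff(X)`, and it is a simplicial cone, generated by a basis `b` of
  `N¹(X) ⊗ ℝ` with `b j` in `Λ_i ⊗ ℝ` for `i = β j`;
* a class is in `Nef(X)⁺` if and only if its component in `Λ_i ⊗ ℝ` is zero or a combination of the
  `b j` in `Λ_i ⊗ ℝ` with positive coefficients, for all `i`;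
* the action of the group `Aut(X)` on `Nef(X)⁺` has a rational polyhedral fundamental domain;
* `Nef(X) ∩ Eff(X) ⊆ Nef(X)⁺`, and there is equality if and only if every `Λ_i ⊗ ℝ` contains a
  nonzero effective class. In this case the nef cone conjecture holds for `X`: the action of `Aut(X)`
  on `Nef(X) ∩ Eff(X)` has a rational polyhedral fundamental domain. -/
theorem Pool.Agent.Results.MP_e49dc9_ag.NefBlocks.result
    {K : Type} [Field K] [Algebra ℂ K] {N n r k ρ : ℕ} {y : Fin (N + 1) → K} (hy : NormalModel y)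
    (hn : Algebra.trdeg ℂ K = n) (hn0 : 0 < n) (hr : 0 < r)
    {c : Place ℂ K → Fin ρ → ℤ} (hc : PicardBasis y c)
    {φ : (Fin r → ℤ) → (K ≃ₐ[ℂ] K)} (hφ : ∀ u v, φ (u + v) = φ u * φ v)
    (haut : ∀ v, IsAut (φ v) y) (hent : ∀ v, v ≠ 0 → 1 < dynDegree (φ v) y n 1)
    {u : Fin ρ → Fin ρ → ℤ} (hu : LinearIndependent ℝ (fun j i => (u j i : ℝ)))
    {β : Fin ρ → Fin k} (hβ : ∀ i, ∃ j j', j ≠ j' ∧ β j = i ∧ β j' = i) (hρ : ρ = r + k)
    (hbl : ∀ v, PreservesBlocks y c u β (φ v)) :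
    nefCone y n c = closure (effCone y c) ∧
    (∃ b : Fin ρ → Fin ρ → ℝ, LinearIndependent ℝ b ∧
      (∀ j, ∃ a : Fin ρ → ℝ, (∀ l, β l ≠ β j → a l = 0) ∧ b j = comb u a) ∧
      (∀ x, x ∈ nefCone y n c ↔ ∃ a : Fin ρ → ℝ, (∀ j, 0 ≤ a j) ∧ x = ∑ j, a j • b j) ∧
      ∀ x, x ∈ ratHull (nefCone y n c) ↔ ∃ a : Fin ρ → ℝ, (∀ j, 0 ≤ a j) ∧
        (∀ j j', β j = β j' → a j = 0 → a j' = 0) ∧ x = ∑ j, a j • b j) ∧
    HasFundDomain {T | ∃ ψ, IsAut ψ y ∧ IsPullBack y c ψ T} (ratHull (nefCone y n c)) ∧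
    nefCone y n c ∩ effCone y c ⊆ ratHull (nefCone y n c) ∧
    ((∀ i, ∃ a : Fin ρ → ℝ, a ≠ 0 ∧ (∀ l, β l ≠ i → a l = 0) ∧ comb u a ∈ effCone y c) ↔
      nefCone y n c ∩ effCone y c = ratHull (nefCone y n c)) ∧
    ((∀ i, ∃ a : Fin ρ → ℝ, a ≠ 0 ∧ (∀ l, β l ≠ i → a l = 0) ∧ comb u a ∈ effCone y c) →
      HasFundDomain {T | ∃ ψ, IsAut ψ y ∧ IsPullBack y c ψ T} (nefCone y n c ∩ effCone y c)) := by
  have h := full_nef hy hn hn0 hr hc (𝒮 := autGroup y) (fun _ h => h) hφ haut hent hu hβ hρ hbl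
  exact ⟨h.eq, h.desc, h.fd, h.sub, h.iff, h.fde⟩
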