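import Pool.Agent.Run7.h913.SH.Stab

/-!
The faces of the nef cone which contain a class of numerical dimension at least `n - 1`, and their
stabilisers.
-/

set_option autoImplicit false

open FF Pool.Agent.W602.GT Pool.Agent.Y172 Pool.Agent.R887 Pool.Agent.N110 Pool.Agent.N110.DV
open Run7.h528.NR Run7.h913.SH

/-- Let `Y` be a normal projective variety of dimension `n ≥ 2` with generic point `y`, with terminal
singularities and `K_Y` nef, for instance a smooth projective variety with numerically trivial
canonical class. Let the vectors `c P` in `ℤ ^ ρ` be the numerical classes of the prime divisors `P`
of `Y` (they exist by the theorem of Néron and Severi). Let `L` be a `ℚ`-divisor and let `G` be any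
group of automorphisms, or of birational self-maps, of `Y`, given by automorphisms of the function
field, which preserve the numerical class of `L` (the divisors `L - g^* L` are pseudo-effective for
all `g` in `G`); for instance let `G` be the full stabiliser of the class of `L` in `Aut Y`.

Then at least one of the following holds:
* the numerical dimension and the Iitaka dimension of `L` are at most `n - 2`, and they are equal if
  the Iitaka dimension is at least `n - 2` (`CodimTwoD`);
* `G` is of Mordell-Weil type over the set `S` of the nef divisors `U` such that `L + U` is not big
  (`MordellWeilOver`, `NefFace`): there are a normal subgroup `G₀` of finite index in `G` and a surjective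
  homomorphism `Φ` from `G₀` onto `ℤ ^ r` with the following properties.
  - The kernel of `Φ` acts trivially on the numerical classes of the divisors.
  - For every divisor `U` there are divisors `A i` and `B i j` such that `g^* U` is numerically
    equivalent to `U + ∑ i, Φ g i • A i + ∑ i, ∑ j, (Φ g i * Φ g j) • B i j` for all `g` in `G₀`. The
    classes of the `B i j = B j i` are fixed by `G₀`. The quadratic form `B` takes its values in the
    pseudo-effective cone if `U` is effective, and does not take the value zero, except at zero, if
    `U` is a hyperplane section. The degree `g^* H · H ^ (n - 1)` is at most `C (|Φ g| ^ 2 + 1)` and at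
    least `|Φ g| ^ 2 / C`, where `C` does not depend on `g`.
  - The classes of the divisors in `S` are fixed by `G₀`, and no element `g` of `G₀` with `Φ g ≠ 0`
    fixes a big class. So if `L` is nef and not big, and `G` is a group of automorphisms of `Y`, then
    `G` acts through a finite group on the classes of the divisors in `S`, the rational points of a
    face of the nef cone.
  - `r = 0` or `r + 1 + k ≤ ρ`, where `k` is the dimension of the space of the classes which are fixed
    by `G₀`.

This is what the cone conjecture, together with the abundance conjecture, predicts for the stabiliser
of a rational point `L` in the boundary of the nef cone: the face should be the nef cone of the base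
of an elliptic fibration, and `G₀` the group of its translations. -/
theorem Pool.Agent.Results.MP_e49dc9_ag.NefFaceStabilizers.result
    {K : Type} [Field K] [Algebra ℂ K] {N n : ℕ} {y : Fin (N + 1) → K} (hy : NormalModel y)
    (hn : Algebra.trdeg ℂ K = n) (hn1 : 1 < n) {ρ : ℕ} {c : Place ℂ K → Fin ρ → ℤ}
    (hc : NumClasses y c) {L : Place ℂ K → ℚ} (hL : {P | IsPrimeDivisor y P ∧ L P ≠ 0}.Finite)
    (G : Subgroup (K ≃ₐ[ℂ] K))
    (hG : (TerminalPair y n 0 ∧ LogNef y n 0) ∨ ∀ g ∈ G, PseudoAut g y)
    (hcl : ∀ g ∈ G, ClassLe g y L) :
    CodimTwoD y n L ∨ MordellWeilOver y n c (NefFace y n L) G :=
  (stab_main hy hn hn1 hc hL G hG hcl).imp id fun h => h.mono (nefFace_le hy hn)
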