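import Pool.Agent.Run7.h334.CQ.Main

set_option autoImplicit false

/-!
# The nef cone conjecture is equivalent to its case of strict Calabi-Yau manifolds

Let `Y` be a smooth projective variety with `K_Y ≡ 0`. By the decomposition theorem of Beauville and
Bogomolov `Y = X / H` where `H` is a finite group which acts freely on `X = A × S_1 × ... × S_n`, `A`
is an abelian variety and the `S_i` are simply connected and either hyperkähler or strict Calabi-Yau
manifolds (of dimension `≥ 3`, without holomorphic forms of degree `0 < p < dim S_i`). The theorem
says that the cone conjecture for the effective nef cone of `Y` and `Aut(Y)` follows from the cone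
conjecture for `A` and the `S_i`. It is known for abelian varieties and for hyperkähler manifolds. So
it holds for all `Y` without strict Calabi-Yau factors, and the conjecture for all `Y` is equivalent
to its case of strict Calabi-Yau manifolds.

The proof: the product of fundamental domains covers `Nef^e(X)`. Let `Π` be generated by finitely many
integral classes of `Nef^e(X)`. Only finitely many elements of the image of `Aut(X)` in `GL(N¹(X))` fix
a big class in `Π` (Dickson's lemma; from the starting repository). If `x` is a class on `Y` and
`g x ∈ Π` then all `g h g⁻¹`, `h ∈ H`, have this property. So for these `g` there are only finitely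
many homomorphisms `h ↦ g h g⁻¹` modulo the kernel `K` of the action. This kernel is infinite in
general: it contains the translations by `A`. As `H¹(H, A)` is finite there are only finitely many
homomorphisms modulo conjugation by elements of `K`; this is proved here for all kernels which have
a commutative subgroup `A` of finite index, normal in `Aut(X)`, such that all `A / A ^ n` and all
torsion subgroups `A[n]` are finite. Hence the centraliser of `H` in `Aut(X)`, which acts on `Y`, moves
every ample class of `Y` into one of finitely many rational polyhedral cones, and a Dirichlet domain
is a fundamental domain.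

`IsCone`, `IsLattice`, `HasDegree`, `IsConePair`, `HasFundDomain`, `IsLin`, `IsLinIso`,
`IsLinAction`, `SmallKernel`, `Variety`, `ConeConj`, `Preserves`, `IsGood`, `IsPullBack`,
`IsQuotient`, `IsProduct` and `IsCoveredBy` are defined in `Pool.Agent.Run7.h334.CQ.Defs`; `Small` in
`Pool.Agent.Run7.h334.CQ.Lift`; `cone` in `Pool.Agent.Y167.ConeDef`.
-/

open Run7.h334.CQ Run7.h334.CQ.Variety

/-- Let `V` be the class of all smooth projective varieties `X` with `K_X ≡ 0`. For `X` in `V` let
`D X` consist of `N = N¹(X)`, the group `L` of the classes of line bundles, the nef cone `C`, the
effective cone `E`, and `G = Aut(X)` which acts on `N` by `φ ↦ (φ⁻¹)^*`. The kernel of the action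
contains the abelian variety `Aut⁰(X)` as a subgroup of finite index (`IsGood`). Let `ab`, `hk` and
`strict` be the classes of the abelian varieties, of the hyperkähler manifolds and of the strict
Calabi-Yau manifolds.

(1) If `Y = X / H` where `X` is a product of varieties `S` which satisfy the cone conjecture then `Y`
satisfies the cone conjecture.

(2) All `Y` which are finite étale quotients of products of abelian varieties and hyperkähler
manifolds satisfy the cone conjecture: `Nef(Y) ∩ Eff(Y)` has a rational polyhedral fundamental domain
for the action of `Aut(Y)`.

(3) The cone conjecture holds for all `Y` if and only if it holds for all strict Calabi-Yau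
manifolds. -/
theorem Pool.Agent.Results.MP_e49dc9_ag.ReductionToStrict.result {V : Type} {D : V → Variety}
    (hD : ∀ X, (D X).IsGood) {ab hk strict : Set V}
    (hBB : ∀ Y, IsCoveredBy D Y (ab ∪ hk ∪ strict))
    (hab : ∀ A ∈ ab, (D A).ConeConj) (hhk : ∀ S ∈ hk, (D S).ConeConj) :
    (∀ (Y : V) (F : Set V), IsCoveredBy D Y F → (∀ S ∈ F, (D S).ConeConj) → (D Y).ConeConj) ∧
    (∀ Y : V, IsCoveredBy D Y (ab ∪ hk) → (D Y).ConeConj) ∧
    ((∀ Y : V, (D Y).ConeConj) ↔ ∀ S ∈ strict, (D S).ConeConj) := by
  refine ⟨fun Y F hY hF => covered hD hY hF, fun Y hY => covered hD hY ?_,
    fun h S _ => h S, fun h Y => covered hD (hBB Y) ?_⟩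
  · rintro S (hS | hS)
    · exact hab S hS
    · exact hhk S hS
  · rintro S ((hS | hS) | hS)
    · exact hab S hS
    · exact hhk S hS
    · exact h S hS
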